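import Pool.Agent.H354.ISO.Defs

set_option autoImplicit false

/-! ISO REC: the graphs are determined by the relations `perp`. -/

namespace Pool.Agent.H887.ISO.REC

open Pool.Agent.H354.ISO

section defs

variable {F ι κ J : Type} [Field F] [Fintype ι] [DecidableEq ι] [Fintype κ] [DecidableEq κ]
  [Fintype J]

/-- sum of the dimensions -/
noncomputable def D (G : J → ι → ι → Prop) (α : ι → F) : ℕ :=
  ∑ j, Module.finrank F (P (G j) α)

/-- the value at the basis vectors -/
noncomputable def rr (F : Type) [Field F] (G : J → ι → ι → Prop) (v : ι) : ℕ :=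
  ∑ j, Module.finrank F (P (G j) (Pi.single v 1 : ι → F))

theorem D_single (G : J → ι → ι → Prop) (v : ι) : D G (Pi.single v 1 : ι → F) = rr F G v := rfl

theorem D_le (h1 : S_REC1) (G : J → ι → ι → Prop) (hs : ∀ j u v, G j u v → G j v u)
    (hi : ∀ j u, ¬ G j u u) (α : ι → F) (v : ι) (h : α v ≠ 0) : D G α ≤ rr F G v :=
  Finset.sum_le_sum (fun j _ => (h1 F ι (G j) (hs j) (hi j) α v h).1)

theorem D_eq_iff (h1 : S_REC1) (G : J → ι → ι → Prop) (hs : ∀ j u v, G j u v → G j v u)
    (hi : ∀ j u, ¬ G j u u) (α : ι → F) (v : ι) (h : α v ≠ 0) :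
    D G α = rr F G v ↔ ∀ w, α w ≠ 0 → ∀ j, dom (G j) w v := by
  unfold D rr
  rw [Finset.sum_eq_sum_iff_of_le (fun j _ => (h1 F ι (G j) (hs j) (hi j) α v h).1)]
  constructor
  · intro h' w hw j
    exact ((h1 F ι (G j) (hs j) (hi j) α v h).2.mp (h' j (Finset.mem_univ _))) w hw
  · intro h' j _
    exact (h1 F ι (G j) (hs j) (hi j) α v h).2.mpr (fun w hw => h' w hw j)

omit [Fintype ι] [DecidableEq ι] [Fintype κ] [DecidableEq κ] in
theorem D_map (G : J → ι → ι → Prop) (H : J → κ → κ → Prop) (T : (ι → F) ≃ₗ[F] (κ → F))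
    (hT : ∀ j α β, perp (G j) α β ↔ perp (H j) (T α) (T β)) (α : ι → F) :
    ∑ j, Module.finrank F (P (H j) (T α)) = ∑ j, Module.finrank F (P (G j) α) := by
  refine Finset.sum_congr rfl (fun j _ => ?_)
  have : P (H j) (T α) = (P (G j) α).map (T : (ι → F) →ₗ[F] (κ → F)) := by
    ext β
    rw [Submodule.mem_map_equiv]
    show perp (H j) (T α) β ↔ perp (G j) α (T.symm β)
    rw [hT, T.apply_symm_apply]
  rw [this, LinearEquiv.finrank_map_eq]

theorem exists_sigma (T : (ι → F) ≃ₗ[F] (κ → F)) :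
    ∃ σ : ι ≃ κ, ∀ v, T (Pi.single v 1) (σ v) ≠ 0 := by
  have hc : Fintype.card ι = Fintype.card κ := by
    have := T.finrank_eq
    rwa [Module.finrank_fintype_fun_eq_card, Module.finrank_fintype_fun_eq_card] at this
  let e : ι ≃ κ := Fintype.equivOfCardEq hc
  let T' : (ι → F) ≃ₗ[F] (ι → F) := T.trans (LinearEquiv.funCongrLeft F F e)
  have hdet : (LinearMap.toMatrix' (T' : (ι → F) →ₗ[F] (ι → F))).det ≠ 0 := by
    rw [LinearMap.det_toMatrix']
    exact (LinearEquiv.isUnit_det' T').ne_zero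
  rw [Matrix.det_apply] at hdet
  obtain ⟨π, _, hπ⟩ := Finset.exists_ne_zero_of_sum_ne_zero hdet
  have hπ' : ∏ i, LinearMap.toMatrix' (T' : (ι → F) →ₗ[F] (ι → F)) (π i) i ≠ 0 := by
    intro h
    rw [h] at hπ
    simp at hπ
  rw [Finset.prod_ne_zero_iff] at hπ'
  refine ⟨π.trans e, fun v => ?_⟩
  have h := hπ' v (Finset.mem_univ _)
  rw [LinearMap.toMatrix'_apply] at h
  exact h

omit [Fintype κ] [DecidableEq κ] in
/-- expansion in the basis -/
theorem exists_coord (T : (ι → F) ≃ₗ[F] (κ → F)) (γ : ι → F) (x : κ) (h : T γ x ≠ 0) :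
    ∃ w, γ w ≠ 0 ∧ T (Pi.single w 1) x ≠ 0 := by
  by_contra hc
  push Not at hc
  apply h
  have h2 : γ = ∑ w, γ w • (Pi.single w 1 : ι → F) := (pi_eq_sum_univ' γ)
  rw [h2, map_sum, Finset.sum_apply]
  refine Finset.sum_eq_zero (fun w _ => ?_)
  rw [map_smul, Pi.smul_apply, smul_eq_mul]
  by_cases hw : γ w = 0
  · rw [hw, zero_mul]
  · rw [hc w hw, mul_zero]

end defs

theorem dom_refl {ι : Type} (R : ι → ι → Prop) (a : ι) : dom R a a := fun _ h => Or.inr h

theorem dom_trans {ι : Type} (R : ι → ι → Prop) (hs : ∀ u v, R u v → R v u) {w b a : ι}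
    (h1 : dom R w b) (h2 : dom R b a) : dom R w a := by
  intro x hx
  rcases h1 x hx with rfl | h
  · rcases h2 w (hs _ _ hx) with rfl | h3
    · exact Or.inr hx
    · rcases h1 a (hs _ _ h3) with rfl | h4
      · exact Or.inl rfl
      · exact Or.inr (hs _ _ h4)
  · exact h2 x h

section key

variable {F ι κ J : Type} [Field F] [Fintype ι] [DecidableEq ι] [Fintype κ] [DecidableEq κ]
  [Fintype J]

theorem order (h1 : S_REC1) (F : Type) [Field F] (H : J → κ → κ → Prop)
    (hs : ∀ j u v, H j u v → H j v u)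
    (hi : ∀ j u, ¬ H j u u) (w a : κ) (h : ∀ j, dom (H j) w a) :
    rr F H a ≤ rr F H w ∧ (rr F H a = rr F H w → ∀ j, dom (H j) a w) := by
  by_cases hwa : w = a
  · subst hwa
    exact ⟨le_rfl, fun _ j => dom_refl _ _⟩
  have ea : (Pi.single w 1 + Pi.single a 1 : κ → F) a ≠ 0 := by
    rw [Pi.add_apply, Pi.single_eq_same, Pi.single_eq_of_ne (Ne.symm hwa), zero_add]
    exact one_ne_zero
  have ew : (Pi.single w 1 + Pi.single a 1 : κ → F) w ≠ 0 := by
    rw [Pi.add_apply, Pi.single_eq_same, Pi.single_eq_of_ne hwa, add_zero]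
    exact one_ne_zero
  have hD : D H (Pi.single w 1 + Pi.single a 1 : κ → F) = rr F H a := by
    rw [D_eq_iff h1 H hs hi _ a ea]
    intro x hx j
    by_cases hxa : x = a
    · subst hxa
      exact dom_refl _ _
    by_cases hxw : x = w
    · subst hxw
      exact h j
    exfalso
    apply hx
    rw [Pi.add_apply, Pi.single_eq_of_ne hxw, Pi.single_eq_of_ne hxa, add_zero]
  refine ⟨?_, ?_⟩
  · rw [← hD]
    exact D_le h1 H hs hi _ w ew
  · intro he
    rw [← hD, D_eq_iff h1 H hs hi _ w ew] at he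
    exact he a ea

theorem key (h1 : S_REC1) (G : J → ι → ι → Prop) (H : J → κ → κ → Prop)
    (hGs : ∀ j u v, G j u v → G j v u) (hGi : ∀ j u, ¬ G j u u)
    (hHs : ∀ j u v, H j u v → H j v u) (hHi : ∀ j u, ¬ H j u u)
    (T : (ι → F) ≃ₗ[F] (κ → F)) (hT : ∀ j α β, perp (G j) α β ↔ perp (H j) (T α) (T β)) :
    ∃ σ : ι ≃ κ, ∀ j u v, u ≠ v → ¬ G j u v → ¬ H j (σ u) (σ v) := by
  have hT' : ∀ j α β, perp (H j) α β ↔ perp (G j) (T.symm α) (T.symm β) := by
    intro j α β
    rw [hT, T.apply_symm_apply, T.apply_symm_apply]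
  obtain ⟨σ, hσ⟩ := exists_sigma T
  obtain ⟨τ, hτ⟩ := exists_sigma T.symm
  have hDT : ∀ α : ι → F, D H (T α) = D G α := fun α => D_map G H T hT α
  have hDT' : ∀ β : κ → F, D G (T.symm β) = D H β := fun β => D_map H G T.symm hT' β
  have hr1 : ∀ v, rr F G v ≤ rr F H (σ v) := by
    intro v
    rw [← D_single, ← hDT]
    exact D_le h1 H hHs hHi _ _ (hσ v)
  have hr2 : ∀ w, rr F H w ≤ rr F G (τ w) := by
    intro w
    rw [← D_single, ← hDT']
    exact D_le h1 G hGs hGi _ _ (hτ w)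
  have hr : ∀ v, rr F G v = rr F H (σ v) := by
    have hsum : ∑ v, rr F G v = ∑ v, rr F H (σ v) := by
      apply le_antisymm (Finset.sum_le_sum (fun v _ => hr1 v))
      rw [Equiv.sum_comp σ (fun w => rr F H w), ← Equiv.sum_comp τ (fun v => rr F G v)]
      exact Finset.sum_le_sum (fun w _ => hr2 w)
    rw [Finset.sum_eq_sum_iff_of_le (fun v _ => hr1 v)] at hsum
    exact fun v => hsum v (Finset.mem_univ _)
  have hdom : ∀ v w, T (Pi.single v 1) w ≠ 0 → ∀ j, dom (H j) w (σ v) := by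
    intro v
    rw [← D_eq_iff h1 H hHs hHi _ _ (hσ v), hDT, D_single]
    exact hr v
  refine ⟨σ, ?_⟩
  intro j u v huv hG hH
  have hperp : perp (G j) (Pi.single u 1 : ι → F) (Pi.single v 1) := by
    intro x y hxy
    have e1 : (Pi.single u 1 : ι → F) x * (Pi.single v 1 : ι → F) y = 0 := by
      by_cases hx : x = u
      · by_cases hy : y = v
        · subst hx; subst hy
          exact absurd hxy hG
        · rw [Pi.single_eq_of_ne hy, mul_zero]
      · rw [Pi.single_eq_of_ne hx, zero_mul]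
    have e2 : (Pi.single u 1 : ι → F) y * (Pi.single v 1 : ι → F) x = 0 := by
      by_cases hy : y = u
      · by_cases hx : x = v
        · subst hx; subst hy
          exact absurd (hGs _ _ _ hxy) hG
        · rw [Pi.single_eq_of_ne hx, mul_zero]
      · rw [Pi.single_eq_of_ne hy, zero_mul]
    rw [e1, e2]
  rw [hT] at hperp
  obtain ⟨α, hα⟩ : ∃ α, α = T (Pi.single u 1) := ⟨_, rfl⟩
  obtain ⟨β, hβ⟩ : ∃ β, β = T (Pi.single v 1) := ⟨_, rfl⟩
  have hαa : α (σ u) ≠ 0 := by rw [hα]; exact hσ u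
  have hβb : β (σ v) ≠ 0 := by rw [hβ]; exact hσ v
  have hdα : ∀ w, α w ≠ 0 → ∀ j, dom (H j) w (σ u) := by rw [hα]; exact hdom u
  have hdβ : ∀ w, β w ≠ 0 → ∀ j, dom (H j) w (σ v) := by rw [hβ]; exact hdom v
  rw [← hα, ← hβ] at hperp
  have hab := hperp _ _ hH
  have hprod : α (σ u) * β (σ v) ≠ 0 := mul_ne_zero hαa hβb
  rw [hab] at hprod
  have hαb : α (σ v) ≠ 0 := left_ne_zero_of_mul hprod
  have hβa : β (σ u) ≠ 0 := right_ne_zero_of_mul hprod
  have hba : ∀ j, dom (H j) (σ v) (σ u) := hdα _ hαb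
  have hab' : ∀ j, dom (H j) (σ u) (σ v) := hdβ _ hβa
  have hγ0 : ∀ w, (∀ j, dom (H j) w (σ u)) → (∀ j, dom (H j) (σ u) w) →
      (β - (β (σ u) / α (σ u)) • α) w = 0 := by
    intro w hwa haw
    rw [Pi.sub_apply, Pi.smul_apply, smul_eq_mul]
    by_cases hw : w = σ u
    · rw [hw]
      field_simp
      ring
    · have hadj : H j (σ u) w := by
        by_cases hwb : w = σ v
        · rw [hwb]; exact hH
        · rcases haw j _ hH with h | h
          · exact absurd h.symm hwb
          · rcases hba j _ (hHs _ _ _ h) with h | h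
            · exact absurd h hw
            · exact h
      have h := hperp _ _ hadj
      have h2 : β w = α w * β (σ u) / α (σ u) := by
        rw [← h]
        field_simp
      rw [h2]
      ring
  have hγ1 : ∀ w, (β - (β (σ u) / α (σ u)) • α) w ≠ 0 → rr F H (σ u) + 1 ≤ rr F H w := by
    intro w hw
    have hwa : ∀ j, dom (H j) w (σ u) := by
      by_cases h : α w = 0
      · have hβw : β w ≠ 0 := by
          intro h'
          apply hw
          rw [Pi.sub_apply, Pi.smul_apply, h, h', smul_zero, sub_zero]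
        intro j
        exact dom_trans _ (hHs j) (hdβ w hβw j) (hba j)
      · exact hdα w h
    obtain ⟨o1, o2⟩ := order h1 F H hHs hHi w (σ u) hwa
    by_contra hc
    exact hw (hγ0 w hwa (o2 (by omega)))
  have hv : T.symm (β - (β (σ u) / α (σ u)) • α) v ≠ 0 := by
    rw [map_sub, map_smul, hα, hβ, T.symm_apply_apply, T.symm_apply_apply, Pi.sub_apply,
      Pi.smul_apply, Pi.single_eq_same, Pi.single_eq_of_ne (Ne.symm huv), smul_zero, sub_zero]
    exact one_ne_zero
  obtain ⟨w, hw1, hw2⟩ := exists_coord T.symm _ _ hv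
  have i1 := hγ1 w hw1
  have i2 : rr F H w ≤ rr F G v := by
    rw [← D_single, ← hDT']
    exact D_le h1 G hGs hGi _ _ hw2
  have i3 := hr v
  have i4 := (order h1 F H hHs hHi (σ u) (σ v) hab').1
  omega

end key

theorem t_REC (h1 : S_REC1) : S_REC := by
  classical
  intro F _ ι κ J _ _ _ _ _ G H hGs hGi hHs hHi T hT
  obtain ⟨σ, hσ⟩ := key h1 G H hGs hGi hHs hHi T hT
  have hT' : ∀ j α β, perp (H j) α β ↔ perp (G j) (T.symm α) (T.symm β) := by
    intro j α β
    rw [hT, T.apply_symm_apply, T.apply_symm_apply]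
  obtain ⟨τ, hτ⟩ := key h1 H G hHs hHi hGs hGi T.symm hT'
  refine ⟨σ, fun j u v => ⟨?_, ?_⟩⟩
  · intro hG
    by_contra hH
    have huv : u ≠ v := fun h => hGi j v (h ▸ hG)
    let NG : Finset (ι × ι) := Finset.univ.filter (fun p => p.1 ≠ p.2 ∧ ¬ G j p.1 p.2)
    let NH : Finset (κ × κ) := Finset.univ.filter (fun p => p.1 ≠ p.2 ∧ ¬ H j p.1 p.2)
    have c1 : NG.image (fun p => (σ p.1, σ p.2)) ⊆ NH := by
      intro p hp
      rw [Finset.mem_image] at hp
      obtain ⟨q, hq, rfl⟩ := hp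
      rw [Finset.mem_filter] at hq ⊢
      exact ⟨Finset.mem_univ _, fun h => hq.2.1 (σ.injective h), hσ j _ _ hq.2.1 hq.2.2⟩
    have c2 : NH.image (fun p => (τ p.1, τ p.2)) ⊆ NG := by
      intro p hp
      rw [Finset.mem_image] at hp
      obtain ⟨q, hq, rfl⟩ := hp
      rw [Finset.mem_filter] at hq ⊢
      exact ⟨Finset.mem_univ _, fun h => hq.2.1 (τ.injective h), hτ j _ _ hq.2.1 hq.2.2⟩
    have d1 : (NG.image (fun p => (σ p.1, σ p.2))).card = NG.card :=
      Finset.card_image_of_injective _ (fun p q h => by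
        rw [Prod.mk.injEq] at h
        exact Prod.ext (σ.injective h.1) (σ.injective h.2))
    have d2 : (NH.image (fun p => (τ p.1, τ p.2))).card = NH.card :=
      Finset.card_image_of_injective _ (fun p q h => by
        rw [Prod.mk.injEq] at h
        exact Prod.ext (τ.injective h.1) (τ.injective h.2))
    have c3 := Finset.card_le_card c2
    have heq : NG.image (fun p => (σ p.1, σ p.2)) = NH :=
      Finset.eq_of_subset_of_card_le c1 (by omega)
    have hmem : (σ u, σ v) ∈ NH := by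
      rw [Finset.mem_filter]
      exact ⟨Finset.mem_univ _, fun h => huv (σ.injective h), hH⟩
    rw [← heq, Finset.mem_image] at hmem
    obtain ⟨q, hq, hqe⟩ := hmem
    rw [Finset.mem_filter] at hq
    rw [Prod.mk.injEq] at hqe
    have e1 := σ.injective hqe.1
    have e2 := σ.injective hqe.2
    rw [e1, e2] at hq
    exact hq.2.2 hG
  · intro hH
    by_contra hG
    by_cases huv : u = v
    · subst huv
      exact hHi j _ hH
    · exact hσ j u v huv hG hH

end Pool.Agent.H887.ISO.REC
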